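import Mathlib

set_option autoImplicit false

namespace Pool.Agent.helper30.Bid

open Complex Real Filter Topology

noncomputable section

/-- evaluation of a two-variable polynomial at `(z, w)` -/
def ev (P : MvPolynomial (Fin 2) ℂ) (z w : ℂ) : ℂ := MvPolynomial.eval ![z, w] P

@[simp] lemma ev_add (P Q : MvPolynomial (Fin 2) ℂ) (z w : ℂ) : ev (P + Q) z w = ev P z w + ev Q z w := by
  simp [ev]
@[simp] lemma ev_sub (P Q : MvPolynomial (Fin 2) ℂ) (z w : ℂ) : ev (P - Q) z w = ev P z w - ev Q z w := by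
  simp [ev]
@[simp] lemma ev_mul (P Q : MvPolynomial (Fin 2) ℂ) (z w : ℂ) : ev (P * Q) z w = ev P z w * ev Q z w := by
  simp [ev]
@[simp] lemma ev_one (z w : ℂ) : ev 1 z w = 1 := by
  simp [ev]
@[simp] lemma ev_zero (z w : ℂ) : ev 0 z w = 0 := by
  simp [ev]
@[simp] lemma ev_pow (P : MvPolynomial (Fin 2) ℂ) (n : ℕ) (z w : ℂ) : ev (P ^ n) z w = ev P z w ^ n := by
  simp [ev]

lemma ev_eq (P : MvPolynomial (Fin 2) ℂ) (z w : ℂ) :
    ev P z w = ∑ d ∈ P.support, P.coeff d * (z ^ d 0 * w ^ d 1) := by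
  rw [ev, MvPolynomial.eval_eq']
  simp

/-- squared coefficient norm of a two-variable polynomial -/
def n2 (P : MvPolynomial (Fin 2) ℂ) : ℝ := ∑ d ∈ P.support, ‖P.coeff d‖ ^ 2

lemma n2_nonneg (P : MvPolynomial (Fin 2) ℂ) : 0 ≤ n2 P := Finset.sum_nonneg fun _ _ => by positivity

lemma sum_le_n2 (P : MvPolynomial (Fin 2) ℂ) (s : Finset (Fin 2 →₀ ℕ)) :
    ∑ d ∈ s, ‖P.coeff d‖ ^ 2 ≤ n2 P := by
  classical
  have h1 : ∑ d ∈ s, ‖P.coeff d‖ ^ 2 = ∑ d ∈ s ∩ P.support, ‖P.coeff d‖ ^ 2 := by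
    symm
    apply Finset.sum_subset Finset.inter_subset_left
    intro d hd hd2
    have : d ∉ P.support := fun h => hd2 (Finset.mem_inter.2 ⟨hd, h⟩)
    rw [MvPolynomial.notMem_support_iff] at this
    simp [this]
  rw [h1]
  exact Finset.sum_le_sum_of_subset_of_nonneg Finset.inter_subset_right fun _ _ _ => by positivity

/-- Kronecker substitution -/
def kr (n : ℕ) (P : MvPolynomial (Fin 2) ℂ) : Polynomial ℂ :=
  ∑ d ∈ P.support, Polynomial.monomial (d 0 + n * d 1) (P.coeff d)

lemma kr_eval (n : ℕ) (P : MvPolynomial (Fin 2) ℂ) (z : ℂ) : (kr n P).eval z = ev P z (z ^ n) := by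
  rw [ev_eq, kr, Polynomial.eval_finsetSum]
  apply Finset.sum_congr rfl
  intro d _
  rw [Polynomial.eval_monomial, pow_add, pow_mul]

lemma kr_parseval (n : ℕ) (P : MvPolynomial (Fin 2) ℂ) (hn : P.degreeOf 0 < n) :
    n2 P = Real.circleAverage (fun z => ‖ev P z (z ^ n)‖ ^ 2) 0 1 := by
  classical
  have hinj : Set.InjOn (fun d : Fin 2 →₀ ℕ => d 0 + n * d 1) (P.support : Set (Fin 2 →₀ ℕ)) := by
    intro d hd e he hde
    have h1 : d 0 < n := lt_of_le_of_lt (MvPolynomial.le_degreeOf_of_mem_support _ hd) hn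
    have h2 : e 0 < n := lt_of_le_of_lt (MvPolynomial.le_degreeOf_of_mem_support _ he) hn
    simp only at hde
    have h3 : d 0 = e 0 := by
      have := congrArg (· % n) hde
      simpa [Nat.add_mul_mod_self_left, Nat.mod_eq_of_lt h1, Nat.mod_eq_of_lt h2] using this
    have h4 : d 1 = e 1 := by
      rw [h3] at hde
      have : n * d 1 = n * e 1 := by omega
      exact Nat.eq_of_mul_eq_mul_left (by omega) this
    ext i
    fin_cases i
    · exact h3
    · exact h4
  have hcoef : ∀ d ∈ P.support, (kr n P).coeff (d 0 + n * d 1) = P.coeff d := by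
    intro d hd
    rw [kr, Polynomial.finsetSum_coeff, Finset.sum_eq_single d]
    · simp
    · intro e he hne
      rw [Polynomial.coeff_monomial, if_neg]
      intro h
      exact hne (hinj he hd h)
    · intro h; exact absurd hd h
  have hsub : (kr n P).support ⊆ P.support.image (fun d : Fin 2 →₀ ℕ => d 0 + n * d 1) := by
    intro i hi
    by_contra hcon
    rw [Polynomial.mem_support_iff] at hi
    apply hi
    rw [kr, Polynomial.finsetSum_coeff]
    apply Finset.sum_eq_zero
    intro d hd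
    rw [Polynomial.coeff_monomial, if_neg]
    intro h
    exact hcon (Finset.mem_image.2 ⟨d, hd, h⟩)
  have h1 : ∑ i ∈ (kr n P).support, ‖(kr n P).coeff i‖ ^ 2 = n2 P := by
    rw [Finset.sum_subset hsub, Finset.sum_image hinj]
    · unfold n2
      apply Finset.sum_congr rfl
      intro d hd
      rw [hcoef d hd]
    · intro i _ hi
      rw [Polynomial.notMem_support_iff] at hi
      simp [hi]
  rw [← h1, Polynomial.sum_sq_norm_coeff_eq_circleAverage]
  simp_rw [kr_eval]

lemma continuous_ev_kr (n : ℕ) (P : MvPolynomial (Fin 2) ℂ) : Continuous (fun z => ev P z (z ^ n)) := by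
  have : (fun z => ev P z (z ^ n)) = fun z => (kr n P).eval z := by
    funext z; rw [kr_eval]
  rw [this]
  exact (kr n P).continuous

lemma continuous_sq_kr (n : ℕ) (P : MvPolynomial (Fin 2) ℂ) :
    Continuous (fun z => ‖ev P z (z ^ n)‖ ^ 2) := (continuous_ev_kr n P).norm.pow 2

/-- pointwise bounds on the torus give coefficient bounds -/
theorem n2_le_of_bound {ι : Type*} (s : Finset ι) (P : MvPolynomial (Fin 2) ℂ)
    (R : ι → MvPolynomial (Fin 2) ℂ) (a : ℝ) (b : ι → ℝ)
    (h : ∀ z w : ℂ, ‖z‖ = 1 → ‖w‖ = 1 → ‖ev P z w‖ ^ 2 ≤ a + ∑ i ∈ s, b i * ‖ev (R i) z w‖ ^ 2) :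
    n2 P ≤ a + ∑ i ∈ s, b i * n2 (R i) := by
  classical
  set n : ℕ := 1 + P.degreeOf 0 + ∑ i ∈ s, (R i).degreeOf 0 with hn
  have hi : ∀ i ∈ s, (R i).degreeOf 0 < n := by
    intro i his
    have := Finset.single_le_sum (f := fun i => (R i).degreeOf 0) (fun _ _ => Nat.zero_le _) his
    omega
  have hP : P.degreeOf 0 < n := by omega
  have hc : Continuous (fun z => ∑ i ∈ s, b i * ‖ev (R i) z (z ^ n)‖ ^ 2) :=
    continuous_finsetSum _ fun i _ => continuous_const.mul (continuous_sq_kr n (R i))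
  rw [kr_parseval n P hP]
  have hR : ∑ i ∈ s, b i * n2 (R i) =
      Real.circleAverage (fun z => ∑ i ∈ s, b i * ‖ev (R i) z (z ^ n)‖ ^ 2) 0 1 := by
    rw [Real.circleAverage_fun_sum]
    · apply Finset.sum_congr rfl
      intro i his
      rw [kr_parseval n (R i) (hi i his)]
      have := Real.circleAverage_fun_smul (a := b i) (f := fun z : ℂ => ‖ev (R i) z (z ^ n)‖ ^ 2)
        (c := 0) (R := 1)
      simpa [smul_eq_mul] using this.symm
    · intro i _
      exact (continuous_const.mul (continuous_sq_kr n (R i))).continuousOn.circleIntegrable'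
  have h3 : a + Real.circleAverage (fun z => ∑ i ∈ s, b i * ‖ev (R i) z (z ^ n)‖ ^ 2) 0 1 =
      Real.circleAverage (fun z => a + ∑ i ∈ s, b i * ‖ev (R i) z (z ^ n)‖ ^ 2) 0 1 := by
    rw [Real.circleAverage_fun_add, Real.circleAverage_const]
    · exact continuous_const.continuousOn.circleIntegrable'
    · exact hc.continuousOn.circleIntegrable'
  rw [hR, h3]
  apply Real.circleAverage_mono
  · exact (continuous_sq_kr n P).continuousOn.circleIntegrable'
  · exact (continuous_const.add hc).continuousOn.circleIntegrable'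
  · intro z hz
    simp at hz
    apply h z (z ^ n) hz
    rw [norm_pow, hz, one_pow]

end

end Pool.Agent.helper30.Bid
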