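import Mathlib
import Pool.Agent.helper30.Bidisk.Pars

set_option autoImplicit false

namespace Pool.Agent.helper30.Bid

open Complex Real Filter Topology

noncomputable section

/-- the exponent `(a, b)` -/
def ex (a b : ℕ) : Fin 2 →₀ ℕ := Finsupp.single 0 a + Finsupp.single 1 b

@[simp] lemma ex_zero (a b : ℕ) : ex a b 0 = a := by simp [ex]
@[simp] lemma ex_one (a b : ℕ) : ex a b 1 = b := by simp [ex]

/-- index set of the lift -/
def idx (H : Polynomial ℂ) : Finset (Σ _ : ℕ, ℕ) := H.support.sigma (fun m => Finset.range (m + 1))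

/-- the lift of a one-variable polynomial: `z ^ n` goes to `(1/(n+1)) ∑ z^j w^(n-j)` -/
def T (H : Polynomial ℂ) : MvPolynomial (Fin 2) ℂ :=
  ∑ x ∈ idx H, MvPolynomial.monomial (ex x.2 (x.1 - x.2)) (H.coeff x.1 / ((x.1 : ℂ) + 1))

lemma ev_T (H : Polynomial ℂ) (z w : ℂ) :
    ev (T H) z w = ∑ m ∈ H.support, H.coeff m *
      ((1 / ((m : ℂ) + 1)) * ∑ j ∈ Finset.range (m + 1), z ^ j * w ^ (m - j)) := by
  unfold T ev idx
  rw [map_sum, Finset.sum_sigma]
  apply Finset.sum_congr rfl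
  intro m _
  rw [Finset.mul_sum, Finset.mul_sum]
  apply Finset.sum_congr rfl
  intro j _
  rw [MvPolynomial.eval_monomial]
  simp [Finsupp.prod_fintype, Fin.prod_univ_two]
  ring

lemma integral_pow_seg (z w : ℂ) (m : ℕ) :
    ∫ t in (0:ℝ)..1, ((t:ℂ) * z + (1 - (t:ℂ)) * w) ^ m =
      (1 / ((m : ℂ) + 1)) * ∑ j ∈ Finset.range (m + 1), z ^ j * w ^ (m - j) := by
  have hm : ((m:ℂ) + 1) ≠ 0 := by exact_mod_cast Nat.succ_ne_zero m
  by_cases hzw : z = w
  · subst hzw
    have h1 : ∀ t : ℝ, ((t:ℂ) * z + (1 - (t:ℂ)) * z) ^ m = z ^ m := by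
      intro t; congr 1; ring
    simp_rw [h1]
    have h2 : ∑ j ∈ Finset.range (m + 1), z ^ j * z ^ (m - j) = ((m:ℂ) + 1) * z ^ m := by
      have h3 : ∀ j ∈ Finset.range (m + 1), z ^ j * z ^ (m - j) = z ^ m := by
        intro j hj
        rw [← pow_add]
        congr 1
        have := Finset.mem_range.1 hj
        omega
      rw [Finset.sum_congr rfl h3]
      simp
    rw [h2]
    simp
    field_simp
  · have hzw' : z - w ≠ 0 := sub_ne_zero.2 hzw
    have hd : ∀ t ∈ Set.uIcc (0:ℝ) 1, HasDerivAt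
        (fun t : ℝ => ((t:ℂ) * z + (1 - (t:ℂ)) * w) ^ (m + 1) / (((m:ℂ) + 1) * (z - w)))
        (((t:ℂ) * z + (1 - (t:ℂ)) * w) ^ m) t := by
      intro t _
      have h1 : HasDerivAt (fun t : ℝ => (t:ℂ)) 1 t := Complex.ofRealCLM.hasDerivAt
      have h2 : HasDerivAt (fun t : ℝ => (t:ℂ) * z + (1 - (t:ℂ)) * w) (z - w) t := by
        have h20 : HasDerivAt (fun t : ℝ => (t:ℂ) * z + (1 - (t:ℂ)) * w) (1 * z + -1 * w) t :=
          (h1.mul_const z).add ((h1.const_sub 1).mul_const w)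
        exact h20.congr_deriv (by ring)
      have h3 : HasDerivAt
          (fun t : ℝ => ((t:ℂ) * z + (1 - (t:ℂ)) * w) ^ (m + 1) / (((m:ℂ) + 1) * (z - w)))
          (((m + 1 : ℕ) : ℂ) * ((t:ℂ) * z + (1 - (t:ℂ)) * w) ^ (m + 1 - 1) * (z - w) /
            (((m:ℂ) + 1) * (z - w))) t := (h2.pow (m + 1)).div_const (((m:ℂ) + 1) * (z - w))
      refine h3.congr_deriv ?_
      rw [Nat.add_sub_cancel, Nat.cast_add, Nat.cast_one]
      field_simp
    rw [intervalIntegral.integral_eq_sub_of_hasDerivAt hd]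
    · have h4 := (Commute.all z w).geom_sum₂_mul (m + 1)
      have h5 : ∑ j ∈ Finset.range (m + 1), z ^ j * w ^ (m - j) = (z ^ (m + 1) - w ^ (m + 1)) / (z - w) := by
        rw [eq_div_iff hzw']
        simpa using h4
      rw [h5]
      simp
      field_simp
    · apply Continuous.intervalIntegrable
      fun_prop

lemma ev_T_integral (H : Polynomial ℂ) (z w : ℂ) :
    ev (T H) z w = ∫ t in (0:ℝ)..1, H.eval ((t:ℂ) * z + (1 - (t:ℂ)) * w) := by
  rw [ev_T]
  simp_rw [← integral_pow_seg, Polynomial.eval_eq_sum, Polynomial.sum]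
  rw [intervalIntegral.integral_finsetSum]
  · simp
  · intro m _
    apply Continuous.intervalIntegrable
    fun_prop

lemma seg_norm (z w : ℂ) (hz : ‖z‖ ≤ 1) (hw : ‖w‖ ≤ 1) (t : ℝ) (h0 : 0 ≤ t) (h1 : t ≤ 1) :
    ‖(t:ℂ) * z + (1 - (t:ℂ)) * w‖ ≤ 1 := by
  calc ‖(t:ℂ) * z + (1 - (t:ℂ)) * w‖ ≤ ‖(t:ℂ) * z‖ + ‖(1 - (t:ℂ)) * w‖ := norm_add_le _ _
    _ = t * ‖z‖ + (1 - t) * ‖w‖ := by
      rw [norm_mul, norm_mul]
      have : (1 - (t:ℂ)) = ((1 - t : ℝ) : ℂ) := by push_cast; ring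
      rw [this, Complex.norm_real, Complex.norm_real, Real.norm_of_nonneg h0,
        Real.norm_of_nonneg (by linarith)]
    _ ≤ t * 1 + (1 - t) * 1 := by
      apply add_le_add
      · exact mul_le_mul_of_nonneg_left hz h0
      · exact mul_le_mul_of_nonneg_left hw (by linarith)
    _ = 1 := by ring

lemma ev_T_sub (H K : Polynomial ℂ) (z w : ℂ) :
    ev (T (H - K)) z w = ev (T H) z w - ev (T K) z w := by
  rw [ev_T_integral, ev_T_integral, ev_T_integral, ← intervalIntegral.integral_sub]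
  · simp
  · apply Continuous.intervalIntegrable
    fun_prop
  · apply Continuous.intervalIntegrable
    fun_prop

lemma ev_T_diag (H : Polynomial ℂ) (z : ℂ) : ev (T H) z z = H.eval z := by
  rw [ev_T_integral]
  have : ∀ t : ℝ, (t:ℂ) * z + (1 - (t:ℂ)) * z = z := by intro t; ring
  simp_rw [this]
  simp

lemma ev_T_re (H : Polynomial ℂ) (b : ℝ) (h : ∀ z : ℂ, ‖z‖ ≤ 1 → (H.eval z).re ≤ b)
    (z w : ℂ) (hz : ‖z‖ ≤ 1) (hw : ‖w‖ ≤ 1) : (ev (T H) z w).re ≤ b := by
  rw [ev_T_integral]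
  have hint : IntervalIntegrable (fun t : ℝ => H.eval ((t:ℂ) * z + (1 - (t:ℂ)) * w))
      MeasureTheory.volume 0 1 := by
    apply Continuous.intervalIntegrable
    fun_prop
  have h1 := Complex.reCLM.intervalIntegral_comp_comm hint
  simp only [Complex.reCLM_apply] at h1
  rw [← h1]
  calc ∫ t in (0:ℝ)..1, (H.eval ((t:ℂ) * z + (1 - (t:ℂ)) * w)).re
      ≤ ∫ t in (0:ℝ)..1, b := by
        apply intervalIntegral.integral_mono_on zero_le_one
        · apply Continuous.intervalIntegrable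
          fun_prop
        · exact intervalIntegrable_const
        · intro t ht
          exact h _ (seg_norm z w hz hw t ht.1 ht.2)
    _ = b := by simp

lemma ev_T_norm (H : Polynomial ℂ) (b : ℝ) (h : ∀ z : ℂ, ‖z‖ ≤ 1 → ‖H.eval z‖ ≤ b)
    (z w : ℂ) (hz : ‖z‖ ≤ 1) (hw : ‖w‖ ≤ 1) : ‖ev (T H) z w‖ ≤ b := by
  rw [ev_T_integral]
  have := intervalIntegral.norm_integral_le_of_norm_le_const (a := (0:ℝ)) (b := 1) (C := b)
    (f := fun t : ℝ => H.eval ((t:ℂ) * z + (1 - (t:ℂ)) * w)) (by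
      intro t ht
      rw [Set.uIoc_of_le zero_le_one] at ht
      exact h _ (seg_norm z w hz hw t ht.1.le ht.2))
  simpa using this

lemma idx_inj : Set.InjOn (fun x : (Σ _ : ℕ, ℕ) => ex x.2 (x.1 - x.2)) {x | x.2 < x.1 + 1} := by
  rintro ⟨m, j⟩ hx ⟨m', j'⟩ hy h
  simp only at h hx hy
  have h0 := DFunLike.congr_fun h 0
  have h1 := DFunLike.congr_fun h 1
  simp only [ex_zero, ex_one] at h0 h1
  have hx' : j < m + 1 := hx
  have hy' : j' < m' + 1 := hy
  have : m = m' := by omega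
  subst this
  subst h0
  rfl

lemma n2_sum_monomial {ι : Type*} (s : Finset ι) (f : ι → (Fin 2 →₀ ℕ)) (c : ι → ℂ)
    (hf : Set.InjOn f s) :
    n2 (∑ i ∈ s, MvPolynomial.monomial (f i) (c i)) = ∑ i ∈ s, ‖c i‖ ^ 2 := by
  classical
  set P := ∑ i ∈ s, MvPolynomial.monomial (f i) (c i) with hP
  have hcoef : ∀ i ∈ s, P.coeff (f i) = c i := by
    intro i hi
    rw [hP, MvPolynomial.coeff_sum, Finset.sum_eq_single i]
    · simp
    · intro j hj hne
      rw [MvPolynomial.coeff_monomial, if_neg]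
      intro h
      exact hne (hf hj hi h)
    · intro h; exact absurd hi h
  have hsub : P.support ⊆ s.image f := by
    intro d hd
    by_contra hcon
    rw [MvPolynomial.mem_support_iff] at hd
    apply hd
    rw [hP, MvPolynomial.coeff_sum]
    apply Finset.sum_eq_zero
    intro i hi
    rw [MvPolynomial.coeff_monomial, if_neg]
    intro h
    exact hcon (Finset.mem_image.2 ⟨i, hi, h⟩)
  unfold n2
  rw [Finset.sum_subset hsub, Finset.sum_image hf]
  · apply Finset.sum_congr rfl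
    intro i hi
    rw [hcoef i hi]
  · intro d _ hd
    rw [MvPolynomial.notMem_support_iff] at hd
    simp [hd]

lemma n2_T (H : Polynomial ℂ) (n : ℕ) (S : ℝ) (hlow : ∀ m < n, H.coeff m = 0)
    (h : ∀ z : ℂ, ‖z‖ ≤ 1 → ‖H.eval z‖ ≤ S) : n2 (T H) ≤ S ^ 2 / ((n:ℝ) + 1) := by
  have hinj : Set.InjOn (fun x : (Σ _ : ℕ, ℕ) => ex x.2 (x.1 - x.2)) (idx H) := by
    apply idx_inj.mono
    intro x hx
    unfold idx at hx
    rw [Finset.mem_coe, Finset.mem_sigma] at hx
    exact Finset.mem_range.1 hx.2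
  unfold T
  rw [n2_sum_monomial _ _ _ hinj]
  unfold idx
  rw [Finset.sum_sigma]
  have h1 : ∀ m ∈ H.support, ∑ j ∈ Finset.range (m + 1), ‖H.coeff m / ((m:ℂ) + 1)‖ ^ 2 ≤
      ‖H.coeff m‖ ^ 2 / ((n:ℝ) + 1) := by
    intro m hm
    have hnm : n ≤ m := by
      by_contra hlt
      push Not at hlt
      exact (Polynomial.mem_support_iff.1 hm) (hlow m hlt)
    have h2 : ‖H.coeff m / ((m:ℂ) + 1)‖ = ‖H.coeff m‖ / ((m:ℝ) + 1) := by
      rw [norm_div]
      congr 1
      have : ((m:ℂ) + 1) = (((m:ℝ) + 1 : ℝ) : ℂ) := by push_cast; ring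
      rw [this, Complex.norm_real, Real.norm_of_nonneg (by positivity)]
    rw [h2, Finset.sum_const, Finset.card_range, nsmul_eq_mul]
    have hm1 : (0:ℝ) < (m:ℝ) + 1 := by positivity
    have hn1 : (0:ℝ) < (n:ℝ) + 1 := by positivity
    have h3 : ((m + 1 : ℕ) : ℝ) * (‖H.coeff m‖ / ((m:ℝ) + 1)) ^ 2 = ‖H.coeff m‖ ^ 2 / ((m:ℝ) + 1) := by
      push_cast
      field_simp
    rw [h3]
    apply div_le_div_of_nonneg_left (by positivity) hn1
    have : (n:ℝ) ≤ m := by exact_mod_cast hnm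
    linarith
  refine (Finset.sum_le_sum h1).trans ?_
  rw [← Finset.sum_div, Polynomial.sum_sq_norm_coeff_eq_circleAverage]
  apply div_le_div_of_nonneg_right _ (by positivity)
  apply Real.circleAverage_mono_on_of_le_circle
  · apply ContinuousOn.circleIntegrable'
    fun_prop
  · intro z hz
    simp at hz
    have := h z hz.le
    exact pow_le_pow_left₀ (norm_nonneg _) this 2

/-- restriction to the diagonal -/
def dg (P : MvPolynomial (Fin 2) ℂ) : Polynomial ℂ :=
  ∑ d ∈ P.support, Polynomial.monomial (d 0 + d 1) (P.coeff d)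

lemma dg_eval (P : MvPolynomial (Fin 2) ℂ) (z : ℂ) : (dg P).eval z = ev P z z := by
  rw [ev_eq, dg, Polynomial.eval_finsetSum]
  apply Finset.sum_congr rfl
  intro d _
  rw [Polynomial.eval_monomial, pow_add]

lemma geom_aux (m : ℕ) (r : ℝ) (h0 : 0 ≤ r) (h1 : r ≤ 1) :
    ((m:ℝ) + 1) * r ^ m * (1 - r) ≤ 1 := by
  have h2 : ((m:ℝ) + 1) * r ^ m ≤ ∑ j ∈ Finset.range (m + 1), r ^ j := by
    calc ((m:ℝ) + 1) * r ^ m = ∑ j ∈ Finset.range (m + 1), r ^ m := by simp
      _ ≤ _ := by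
        apply Finset.sum_le_sum
        intro j hj
        apply pow_le_pow_of_le_one h0 h1
        have := Finset.mem_range.1 hj
        omega
  have h3 : (∑ j ∈ Finset.range (m + 1), r ^ j) * (1 - r) = 1 - r ^ (m + 1) := by
    have := geom_sum_mul r (m + 1)
    linarith
  calc ((m:ℝ) + 1) * r ^ m * (1 - r) ≤ (∑ j ∈ Finset.range (m + 1), r ^ j) * (1 - r) :=
        mul_le_mul_of_nonneg_right h2 (by linarith)
    _ = 1 - r ^ (m + 1) := h3
    _ ≤ 1 := by
      have : 0 ≤ r ^ (m + 1) := by positivity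
      linarith

theorem diag_bound (P : MvPolynomial (Fin 2) ℂ) (r : ℝ) (h0 : 0 < r) (h1 : r < 1) :
    (1 - r ^ 2) * Real.circleAverage (fun z => ‖ev P z z‖ ^ 2) 0 r ≤ n2 P := by
  classical
  -- the polynomial `P(rz, rz)`
  set q : Polynomial ℂ := ∑ d ∈ P.support, Polynomial.monomial (d 0 + d 1)
    (P.coeff d * (r:ℂ) ^ (d 0 + d 1)) with hq
  have hqe : ∀ z : ℂ, q.eval z = ev P (r * z) (r * z) := by
    intro z
    rw [ev_eq, hq, Polynomial.eval_finsetSum]
    apply Finset.sum_congr rfl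
    intro d _
    rw [Polynomial.eval_monomial]
    ring
  have hav : Real.circleAverage (fun z => ‖ev P z z‖ ^ 2) 0 r =
      ∑ i ∈ q.support, ‖q.coeff i‖ ^ 2 := by
    rw [Real.circleAverage_eq_circleAverage_zero_one, Polynomial.sum_sq_norm_coeff_eq_circleAverage]
    simp_rw [hqe]
    simp
  have hcoef : ∀ i, q.coeff i = ∑ d ∈ P.support with d 0 + d 1 = i, P.coeff d * (r:ℂ) ^ i := by
    intro i
    rw [hq, Polynomial.finsetSum_coeff, Finset.sum_filter]
    apply Finset.sum_congr rfl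
    intro d _
    rw [Polynomial.coeff_monomial]
    split_ifs with h
    · rw [h]
    · rfl
  have hr2 : 0 < 1 - r ^ 2 := by nlinarith
  have hone : ∀ i, (1 - r ^ 2) * ‖q.coeff i‖ ^ 2 ≤
      ∑ d ∈ P.support with d 0 + d 1 = i, ‖P.coeff d‖ ^ 2 := by
    intro i
    set A := {d ∈ P.support | d 0 + d 1 = i} with hA
    have hcard : (A.card : ℝ) ≤ (i:ℝ) + 1 := by
      have : A.card ≤ (Finset.range (i + 1)).card := by
        apply Finset.card_le_card_of_injOn (fun d => d 0)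
        · intro d hd
          have hd' := (Finset.mem_filter.1 hd).2
          simp only [Finset.coe_range, Set.mem_Iio]
          omega
        · intro d hd e he hde
          have hd' := (Finset.mem_filter.1 hd).2
          have he' := (Finset.mem_filter.1 he).2
          simp only at hde
          ext k
          fin_cases k
          · exact hde
          · simp only [Fin.mk_one]
            omega
      rw [Finset.card_range] at this
      exact_mod_cast this
    have h2 : ‖q.coeff i‖ ^ 2 ≤ (A.card : ℝ) * (∑ d ∈ A, ‖P.coeff d‖ ^ 2) * (r ^ 2) ^ i := by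
      rw [hcoef i, ← Finset.sum_mul, norm_mul, norm_pow, Complex.norm_real, mul_pow,
        Real.norm_of_nonneg h0.le, ← pow_mul, ← pow_mul, mul_comm i 2]
      apply mul_le_mul_of_nonneg_right _ (by positivity)
      calc ‖∑ d ∈ A, P.coeff d‖ ^ 2 ≤ (∑ d ∈ A, ‖P.coeff d‖) ^ 2 :=
            pow_le_pow_left₀ (norm_nonneg _) (norm_sum_le _ _) 2
        _ ≤ (A.card : ℝ) * ∑ d ∈ A, ‖P.coeff d‖ ^ 2 := sq_sum_le_card_mul_sum_sq
    have h3 := geom_aux i (r ^ 2) (by positivity) (by nlinarith)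
    have h4 : 0 ≤ ∑ d ∈ A, ‖P.coeff d‖ ^ 2 := Finset.sum_nonneg fun _ _ => by positivity
    calc (1 - r ^ 2) * ‖q.coeff i‖ ^ 2
        ≤ (1 - r ^ 2) * ((A.card : ℝ) * (∑ d ∈ A, ‖P.coeff d‖ ^ 2) * (r ^ 2) ^ i) :=
          mul_le_mul_of_nonneg_left h2 hr2.le
      _ ≤ (1 - r ^ 2) * (((i:ℝ) + 1) * (∑ d ∈ A, ‖P.coeff d‖ ^ 2) * (r ^ 2) ^ i) := by
          apply mul_le_mul_of_nonneg_left _ hr2.le
          apply mul_le_mul_of_nonneg_right _ (by positivity)
          exact mul_le_mul_of_nonneg_right hcard h4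
      _ = (((i:ℝ) + 1) * (r ^ 2) ^ i * (1 - r ^ 2)) * (∑ d ∈ A, ‖P.coeff d‖ ^ 2) := by ring
      _ ≤ 1 * (∑ d ∈ A, ‖P.coeff d‖ ^ 2) := mul_le_mul_of_nonneg_right h3 h4
      _ = _ := one_mul _
  rw [hav, Finset.mul_sum]
  refine (Finset.sum_le_sum fun i _ => hone i).trans ?_
  rw [← Finset.sum_biUnion]
  · exact sum_le_n2 P _
  · intro i _ j _ hij
    rw [Function.onFun, Finset.disjoint_left]
    intro d hd hd'
    exact hij ((Finset.mem_filter.1 hd).2.symm.trans (Finset.mem_filter.1 hd').2)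

end

end Pool.Agent.helper30.Bid
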