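import Mathlib
import Pool.Agent.helper30.Bidisk.Lift

set_option autoImplicit false

namespace Pool.Agent.helper30.Bid

open Complex Real Filter Topology

noncomputable section

lemma norm_exp_sub_exp_le (u v : ℂ) (B : ℝ) (hu : u.re ≤ B) (hv : v.re ≤ B) :
    ‖Complex.exp u - Complex.exp v‖ ≤ Real.exp B * ‖u - v‖ := by
  have hconv : Convex ℝ {z : ℂ | z.re ≤ B} := convex_halfSpace_re_le B
  have := hconv.norm_image_sub_le_of_norm_hasDerivWithin_le (f := Complex.exp) (f' := Complex.exp)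
    (C := Real.exp B) (x := v) (y := u) (fun x _ => (Complex.hasDerivAt_exp x).hasDerivWithinAt)
    (fun x hx => by rw [Complex.norm_exp]; exact Real.exp_le_exp.2 hx) hv hu
  exact this

lemma exists_bound (P : MvPolynomial (Fin 2) ℂ) :
    ∃ B : ℝ, 0 ≤ B ∧ ∀ z w : ℂ, ‖z‖ ≤ 1 → ‖w‖ ≤ 1 → ‖ev P z w‖ ≤ B := by
  refine ⟨∑ d ∈ P.support, ‖P.coeff d‖, Finset.sum_nonneg fun _ _ => norm_nonneg _, ?_⟩
  intro z w hz hw
  rw [ev_eq]
  refine (norm_sum_le _ _).trans (Finset.sum_le_sum fun d _ => ?_)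
  rw [norm_mul, norm_mul, norm_pow, norm_pow]
  have h1 : ‖z‖ ^ d 0 ≤ 1 := pow_le_one₀ (norm_nonneg _) hz
  have h2 : ‖w‖ ^ d 1 ≤ 1 := pow_le_one₀ (norm_nonneg _) hw
  have h3 : ‖z‖ ^ d 0 * ‖w‖ ^ d 1 ≤ 1 := mul_le_one₀ h1 (by positivity) h2
  calc ‖P.coeff d‖ * (‖z‖ ^ d 0 * ‖w‖ ^ d 1) ≤ ‖P.coeff d‖ * 1 :=
        mul_le_mul_of_nonneg_left h3 (norm_nonneg _)
    _ = _ := mul_one _

@[simp] lemma ev_C (c z w : ℂ) : ev (MvPolynomial.C c) z w = c := by simp [ev]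

lemma ev_sum {ι : Type*} (s : Finset ι) (f : ι → MvPolynomial (Fin 2) ℂ) (z w : ℂ) :
    ev (∑ i ∈ s, f i) z w = ∑ i ∈ s, ev (f i) z w := by simp [ev, map_sum]

lemma exists_exp_approx (G : MvPolynomial (Fin 2) ℂ) (c : ℂ) (τ : ℝ) (hτ : 0 < τ) :
    ∃ Q : MvPolynomial (Fin 2) ℂ, ∀ z w : ℂ, ‖z‖ ≤ 1 → ‖w‖ ≤ 1 →
      ‖ev Q z w - Complex.exp (c * ev G z w)‖ ≤ τ := by
  obtain ⟨B, hB, hGB⟩ := exists_bound (MvPolynomial.C c * G)
  have ht := FloorSemiring.tendsto_pow_div_factorial_atTop B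
  have ht2 : Tendsto (fun n : ℕ => B ^ n / (n.factorial : ℝ) * 2) atTop (𝓝 0) := by
    simpa using ht.mul_const 2
  obtain ⟨N, hN⟩ := (((tendsto_order.1 ht2).2 τ hτ).and (eventually_ge_atTop ⌈2 * B⌉₊)).exists
  refine ⟨∑ m ∈ Finset.range N, MvPolynomial.C (1 / (m.factorial : ℂ)) * (MvPolynomial.C c * G) ^ m, ?_⟩
  intro z w hz hw
  have hx : ‖c * ev G z w‖ ≤ B := by
    have := hGB z w hz hw
    simpa using this
  have hN2 : ‖c * ev G z w‖ / (N.succ : ℝ) ≤ 1 / 2 := by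
    have h1 : 2 * B ≤ N := (Nat.le_ceil _).trans (by exact_mod_cast hN.2)
    rw [div_le_iff₀ (by positivity)]
    push_cast
    linarith
  have hb := Complex.exp_bound' hN2
  rw [ev_sum]
  have h2 : ∑ m ∈ Finset.range N, ev (MvPolynomial.C (1 / (m.factorial : ℂ)) * (MvPolynomial.C c * G) ^ m) z w
      = ∑ m ∈ Finset.range N, (c * ev G z w) ^ m / (m.factorial : ℂ) := by
    apply Finset.sum_congr rfl
    intro m _
    simp
    ring
  rw [h2, norm_sub_rev]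
  refine hb.trans ?_
  refine le_trans ?_ hN.1.le
  gcongr

/-- weighted Cauchy-Schwarz -/
lemma sq_sum_le_weight {ι : Type*} (s : Finset ι) (u X : ι → ℝ) (hX : ∀ i ∈ s, 0 < X i) :
    (∑ i ∈ s, u i) ^ 2 ≤ (∑ i ∈ s, X i) * ∑ i ∈ s, u i ^ 2 / X i := by
  apply Finset.sum_sq_le_sum_mul_sum_of_sq_le_mul
  · intro i hi; exact (hX i hi).le
  · intro i hi; have := hX i hi; positivity
  · intro i hi
    have := (hX i hi).ne'
    apply le_of_eq
    field_simp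

/-- the basic domination lemma -/
lemma n2_dom (h : ℕ → MvPolynomial (Fin 2) ℂ) (c X : ℕ → ℝ) (hc : ∀ i, 0 ≤ c i)
    (hX : ∀ i, 0 < X i) (hh : ∀ i, c i ^ 2 * n2 (h i) ≤ X i ^ 2) (s : Finset ℕ)
    (P W : MvPolynomial (Fin 2) ℂ) (a e : ℝ) (ha : 0 ≤ a) (he : 0 ≤ e)
    (hP : ∀ z w : ℂ, ‖z‖ = 1 → ‖w‖ = 1 →
      ‖ev P z w‖ ≤ a + e * ‖ev W z w‖ + ∑ i ∈ s, c i * ‖ev (h i) z w‖) :
    n2 P ≤ 3 * a ^ 2 + 3 * e ^ 2 * n2 W + 3 * (∑ i ∈ s, X i) ^ 2 := by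
  classical
  obtain ⟨R, hR⟩ : ∃ R, R = ∑ i ∈ s, X i := ⟨_, rfl⟩
  rw [← hR]
  have hR0 : 0 ≤ R := by rw [hR]; exact Finset.sum_nonneg fun i _ => (hX i).le
  -- use index type `Option ℕ`
  have key := n2_le_of_bound (Finset.insertNone s) P
    (fun o : Option ℕ => o.elim W h) (3 * a ^ 2)
    (fun o : Option ℕ => o.elim (3 * e ^ 2) (fun i => 3 * R * (c i ^ 2 / X i))) (by
      intro z w hz hw
      have h1 := hP z w hz hw
      have h2 := sq_sum_le_weight s (fun i => c i * ‖ev (h i) z w‖) X (fun i _ => hX i)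
      rw [← hR] at h2
      rw [Finset.sum_insertNone]
      simp only [Option.elim_none, Option.elim_some]
      have h3 : ∑ i ∈ s, 3 * R * (c i ^ 2 / X i) * ‖ev (h i) z w‖ ^ 2 =
          3 * (R * ∑ i ∈ s, (c i * ‖ev (h i) z w‖) ^ 2 / X i) := by
        rw [Finset.mul_sum, Finset.mul_sum]
        apply Finset.sum_congr rfl
        intro i _
        ring
      rw [h3]
      have h4 : 0 ≤ ∑ i ∈ s, c i * ‖ev (h i) z w‖ := Finset.sum_nonneg fun i _ =>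
        mul_nonneg (hc i) (norm_nonneg _)
      have h5 : 0 ≤ e * ‖ev W z w‖ := mul_nonneg he (norm_nonneg _)
      have h6 : ‖ev P z w‖ ^ 2 ≤ (a + e * ‖ev W z w‖ + ∑ i ∈ s, c i * ‖ev (h i) z w‖) ^ 2 :=
        pow_le_pow_left₀ (norm_nonneg _) h1 2
      nlinarith [sq_nonneg (a - e * ‖ev W z w‖), sq_nonneg (a - ∑ i ∈ s, c i * ‖ev (h i) z w‖),
        sq_nonneg (e * ‖ev W z w‖ - ∑ i ∈ s, c i * ‖ev (h i) z w‖)])
  rw [Finset.sum_insertNone] at key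
  simp only [Option.elim_none, Option.elim_some] at key
  refine key.trans ?_
  have h7 : ∑ i ∈ s, 3 * R * (c i ^ 2 / X i) * n2 (h i) ≤ 3 * R ^ 2 := by
    calc ∑ i ∈ s, 3 * R * (c i ^ 2 / X i) * n2 (h i) ≤ ∑ i ∈ s, 3 * R * X i := by
          apply Finset.sum_le_sum
          intro i _
          have hXi := hX i
          have : (c i ^ 2 / X i) * n2 (h i) ≤ X i := by
            rw [div_mul_eq_mul_div, div_le_iff₀ hXi]
            have := hh i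
            nlinarith
          calc 3 * R * (c i ^ 2 / X i) * n2 (h i) = 3 * R * ((c i ^ 2 / X i) * n2 (h i)) := by ring
            _ ≤ 3 * R * X i := mul_le_mul_of_nonneg_left this (by positivity)
      _ = 3 * R ^ 2 := by rw [← Finset.mul_sum, ← hR]; ring
  linarith

/-- a bound on all finite partial sums of squares of coefficients -/
def En (φ : MvPowerSeries (Fin 2) ℂ) (B : ℝ) : Prop :=
  ∀ s : Finset (Fin 2 →₀ ℕ), ∑ d ∈ s, ‖MvPowerSeries.coeff (R := ℂ) d φ‖ ^ 2 ≤ B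

lemma En.summable {φ : MvPowerSeries (Fin 2) ℂ} {B : ℝ} (h : En φ B) :
    Summable (fun d : Fin 2 →₀ ℕ => ‖MvPowerSeries.coeff (R := ℂ) d φ‖ ^ 2) :=
  summable_of_sum_le (fun _ => by positivity) h

lemma En.tsum_le {φ : MvPowerSeries (Fin 2) ℂ} {B : ℝ} (h : En φ B) :
    ∑' d : Fin 2 →₀ ℕ, ‖MvPowerSeries.coeff (R := ℂ) d φ‖ ^ 2 ≤ B :=
  h.summable.tsum_le_of_sum_le h

lemma En_of_tsum_le {φ : MvPowerSeries (Fin 2) ℂ} {B : ℝ}
    (hs : Summable (fun d : Fin 2 →₀ ℕ => ‖MvPowerSeries.coeff (R := ℂ) d φ‖ ^ 2))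
    (h : ∑' d : Fin 2 →₀ ℕ, ‖MvPowerSeries.coeff (R := ℂ) d φ‖ ^ 2 ≤ B) : En φ B :=
  fun s => (hs.sum_le_tsum s (fun _ _ => by positivity)).trans h

lemma En_coe (P : MvPolynomial (Fin 2) ℂ) : En (P : MvPowerSeries (Fin 2) ℂ) (n2 P) := by
  intro s
  simpa using sum_le_n2 P s

lemma n2_le_of_En {P : MvPolynomial (Fin 2) ℂ} {B : ℝ} (h : En (P : MvPowerSeries (Fin 2) ℂ) B) :
    n2 P ≤ B := by
  have := h P.support
  simpa [n2] using this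

lemma En.mono {φ : MvPowerSeries (Fin 2) ℂ} {B B' : ℝ} (h : En φ B) (hB : B ≤ B') : En φ B' :=
  fun s => (h s).trans hB

lemma En.add {φ ψ : MvPowerSeries (Fin 2) ℂ} {B B' : ℝ} (h : En φ B) (h' : En ψ B') :
    En (φ + ψ) (2 * B + 2 * B') := by
  intro s
  calc ∑ d ∈ s, ‖MvPowerSeries.coeff (R := ℂ) d (φ + ψ)‖ ^ 2
      ≤ ∑ d ∈ s, (2 * ‖MvPowerSeries.coeff (R := ℂ) d φ‖ ^ 2 + 2 * ‖MvPowerSeries.coeff (R := ℂ) d ψ‖ ^ 2) := by
        apply Finset.sum_le_sum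
        intro d _
        rw [map_add]
        have h1 := norm_add_le (MvPowerSeries.coeff (R := ℂ) d φ) (MvPowerSeries.coeff (R := ℂ) d ψ)
        have h2 := norm_nonneg (MvPowerSeries.coeff (R := ℂ) d φ + MvPowerSeries.coeff (R := ℂ) d ψ)
        nlinarith [sq_nonneg (‖MvPowerSeries.coeff (R := ℂ) d φ‖ - ‖MvPowerSeries.coeff (R := ℂ) d ψ‖)]
    _ ≤ 2 * B + 2 * B' := by
        rw [Finset.sum_add_distrib, ← Finset.mul_sum, ← Finset.mul_sum]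
        have := h s
        have := h' s
        linarith

/-- coefficientwise convergence -/
def CT (φ : ℕ → MvPowerSeries (Fin 2) ℂ) (ψ : MvPowerSeries (Fin 2) ℂ) : Prop :=
  ∀ d, Tendsto (fun k => MvPowerSeries.coeff (R := ℂ) d (φ k)) atTop
    (𝓝 (MvPowerSeries.coeff (R := ℂ) d ψ))

lemma CT.mul {φ φ' : ℕ → MvPowerSeries (Fin 2) ℂ} {ψ ψ' : MvPowerSeries (Fin 2) ℂ}
    (h : CT φ ψ) (h' : CT φ' ψ') : CT (fun k => φ k * φ' k) (ψ * ψ') := by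
  classical
  intro d
  simp_rw [MvPowerSeries.coeff_mul]
  exact tendsto_finsetSum _ fun p _ => (h p.1).mul (h' p.2)

lemma CT.sub {φ φ' : ℕ → MvPowerSeries (Fin 2) ℂ} {ψ ψ' : MvPowerSeries (Fin 2) ℂ}
    (h : CT φ ψ) (h' : CT φ' ψ') : CT (fun k => φ k - φ' k) (ψ - ψ') := by
  intro d
  simp_rw [map_sub]
  exact (h d).sub (h' d)

lemma CT.const (ψ : MvPowerSeries (Fin 2) ℂ) : CT (fun _ => ψ) ψ := fun _ => tendsto_const_nhds

lemma CT.En {φ : ℕ → MvPowerSeries (Fin 2) ℂ} {ψ : MvPowerSeries (Fin 2) ℂ} {B : ℝ}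
    (h : CT φ ψ) (hB : ∀ᶠ k in atTop, En (φ k) B) : En ψ B := by
  intro s
  refine le_of_tendsto (f := fun k => ∑ d ∈ s, ‖MvPowerSeries.coeff (R := ℂ) d (φ k)‖ ^ 2)
    (x := atTop) ?_ (hB.mono fun k hk => hk s)
  exact tendsto_finsetSum _ fun d _ => ((h d).norm.pow 2)

end

end Pool.Agent.helper30.Bid
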