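import Mathlib
import Pool.Agent.helper30.Bidisk.Red

set_option autoImplicit false

namespace Pool.Agent.helper30.Bid

open Complex Real Filter Topology

noncomputable section

lemma coe_sub (P Q : MvPolynomial (Fin 2) ℂ) :
    ((P - Q : MvPolynomial (Fin 2) ℂ) : MvPowerSeries (Fin 2) ℂ) = (P : MvPowerSeries (Fin 2) ℂ) - Q := by
  have := (MvPolynomial.coeToMvPowerSeries.ringHom (σ := Fin 2) (R := ℂ)).map_sub P Q
  simpa using this

/-- an abstract version of the whole construction -/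
theorem main_aux (H : ℕ → Polynomial ℂ) (b S : ℕ → ℝ) (n : ℕ → ℕ)
    (h0 : H 0 = 0) (hbm : Monotone b) (hb0 : 0 ≤ b 0)
    (A1 : ∀ i (z : ℂ), ‖z‖ ≤ 1 → ((H i).eval z).re ≤ b i)
    (A2 : ∀ i, ∀ m < n i, (H (i + 1) - H i).coeff m = 0)
    (A3 : ∀ i (z : ℂ), ‖z‖ ≤ 1 → ‖(H (i + 1) - H i).eval z‖ ≤ S i)
    (A4 : Summable (fun i => S i * Real.exp (b (i + 1)) / Real.sqrt ((n i : ℝ) + 1)))
    (A5 : ∀ i (z : ℂ), ‖z‖ ≤ 1 → ‖(H i).eval z‖ ≤ b (i + 1))
    (A6 : ∃ ε : ℝ, 0 < ε ∧ ∀ p : Polynomial ℂ, ∀ᶠ i in atTop, ∃ r : ℝ, 0 < r ∧ r < 1 ∧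
      ε < (1 - r ^ 2) * Real.circleAverage
        (fun z => ‖p.eval z * Complex.exp ((H i).eval z) - 1‖ ^ 2) 0 r) :
    ∃ f : MvPowerSeries (Fin 2) ℂ,
      Summable (fun d : Fin 2 →₀ ℕ => ‖MvPowerSeries.coeff (R := ℂ) d f‖ ^ 2) ∧
      Summable (fun d : Fin 2 →₀ ℕ => ‖MvPowerSeries.coeff (R := ℂ) d (f * f)‖ ^ 2) ∧
      (∀ ε : ℝ, 0 < ε → ∃ p : MvPolynomial (Fin 2) ℂ,
        ∑' d : Fin 2 →₀ ℕ,
          ‖MvPowerSeries.coeff (R := ℂ) d ((p : MvPowerSeries (Fin 2) ℂ) * f - 1)‖ ^ 2 < ε) ∧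
      ¬ (∀ ε : ℝ, 0 < ε → ∃ p : MvPolynomial (Fin 2) ℂ,
        ∑' d : Fin 2 →₀ ℕ,
          ‖MvPowerSeries.coeff (R := ℂ) d ((p : MvPowerSeries (Fin 2) ℂ) * (f * f) - 1)‖ ^ 2 < ε) := by
  classical
  -- basic quantities
  have hb : ∀ i, 0 ≤ b i := fun i => hb0.trans (hbm (Nat.zero_le i))
  have hS : ∀ i, 0 ≤ S i := fun i => (norm_nonneg _).trans (A3 i 0 (by simp))
  set G : ℕ → MvPolynomial (Fin 2) ℂ := fun i => T (H i) with hG
  set hh : ℕ → MvPolynomial (Fin 2) ℂ := fun i => T (H (i + 1) - H i) with hhh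
  have hGsub : ∀ i z w, ev (hh i) z w = ev (G (i + 1)) z w - ev (G i) z w := by
    intro i z w
    exact ev_T_sub _ _ z w
  have hG0 : ∀ z w, ev (G 0) z w = 0 := by
    intro z w
    simp only [hG, h0, ev_T_integral]
    simp
  have hGre : ∀ i (z w : ℂ), ‖z‖ ≤ 1 → ‖w‖ ≤ 1 → (ev (G i) z w).re ≤ b i := fun i z w hz hw =>
    ev_T_re _ _ (A1 i) z w hz hw
  have hGn : ∀ i (z w : ℂ), ‖z‖ ≤ 1 → ‖w‖ ≤ 1 → ‖ev (G i) z w‖ ≤ b (i + 1) := fun i z w hz hw =>
    ev_T_norm _ _ (A5 i) z w hz hw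
  set c : ℕ → ℝ := fun i => Real.exp (b (i + 1)) with hc
  have hcpos : ∀ i, 0 < c i := fun i => Real.exp_pos _
  set X : ℕ → ℝ := fun i => S i * Real.exp (b (i + 1)) / Real.sqrt ((n i : ℝ) + 1) + (1 / 2) ^ i with hX
  have hXpos : ∀ i, 0 < X i := by
    intro i
    have := hS i
    have h2 : 0 ≤ S i * Real.exp (b (i + 1)) / Real.sqrt ((n i : ℝ) + 1) := by positivity
    have h3 : (0:ℝ) < (1 / 2) ^ i := by positivity
    simp only [hX]
    linarith
  have hXs : Summable X := A4.add (summable_geometric_of_lt_one (by norm_num) (by norm_num))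
  have hcX : ∀ i, c i ^ 2 * n2 (hh i) ≤ X i ^ 2 := by
    intro i
    have h1 := n2_T (H (i + 1) - H i) (n i) (S i) (A2 i) (A3 i)
    have h2 : c i ^ 2 * n2 (hh i) ≤ c i ^ 2 * (S i ^ 2 / ((n i : ℝ) + 1)) :=
      mul_le_mul_of_nonneg_left h1 (by positivity)
    have h3 : c i ^ 2 * (S i ^ 2 / ((n i : ℝ) + 1)) =
        (S i * Real.exp (b (i + 1)) / Real.sqrt ((n i : ℝ) + 1)) ^ 2 := by
      rw [div_pow, Real.sq_sqrt (by positivity)]
      simp only [hc]
      ring
    have h4 : (0:ℝ) ≤ S i * Real.exp (b (i + 1)) / Real.sqrt ((n i : ℝ) + 1) := by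
      have := hS i
      positivity
    rw [h3] at h2
    refine h2.trans ?_
    apply pow_le_pow_left₀ h4
    simp only [hX]
    have : (0:ℝ) < (1 / 2) ^ i := by positivity
    linarith
  -- tails
  set R : ℕ → ℝ := fun m => ∑' i, X (i + m) with hR
  have hRt : Tendsto R atTop (𝓝 0) := tendsto_sum_nat_add X
  have hR0 : ∀ m, 0 ≤ R m := fun m => tsum_nonneg fun i => (hXpos _).le
  have hIco : ∀ m k, ∑ i ∈ Finset.Ico m k, X i ≤ R m := by
    intro m k
    rw [Finset.sum_Ico_eq_sum_range]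
    have := ((summable_nat_add_iff m).2 hXs).sum_le_tsum (Finset.range (k - m))
      (fun i _ => (hXpos _).le)
    simp only [hR]
    simpa [add_comm] using this
  have hIco0 : ∀ m k, 0 ≤ ∑ i ∈ Finset.Ico m k, X i := fun m k =>
    Finset.sum_nonneg fun i _ => (hXpos i).le
  -- telescoping
  have tele : ∀ (z w : ℂ) (u : ℕ → ℂ) (m k : ℕ), m ≤ k →
      (∀ i, m ≤ i → i < k → (u i).re ≤ b (i + 1)) → (∀ i, m ≤ i → i < k → (u (i + 1)).re ≤ b (i + 1)) →
      (∀ i, m ≤ i → i < k → ‖u (i + 1) - u i‖ ≤ ‖ev (hh i) z w‖) →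
      ‖Complex.exp (u k) - Complex.exp (u m)‖ ≤ ∑ i ∈ Finset.Ico m k, c i * ‖ev (hh i) z w‖ := by
    intro z w u m k hmk h1 h2 h3
    have := dist_le_Ico_sum_of_dist_le (f := fun i => Complex.exp (u i)) hmk
      (d := fun i => c i * ‖ev (hh i) z w‖) (by
        intro i hi1 hi2
        rw [dist_eq_norm, norm_sub_rev]
        refine (norm_exp_sub_exp_le _ _ (b (i + 1)) (h2 i hi1 hi2) (h1 i hi1 hi2)).trans ?_
        exact mul_le_mul_of_nonneg_left (h3 i hi1 hi2) (Real.exp_pos _).le)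
    rw [dist_eq_norm, norm_sub_rev] at this
    exact this
  -- the approximating polynomials
  set τ : ℕ → ℝ := fun k => (1 / 2) ^ k * Real.exp (-(b k)) / 3 with hτ
  have hτpos : ∀ k, 0 < τ k := fun k => by simp only [hτ]; positivity
  have hτle : ∀ k, τ k ≤ (1 / 2) ^ k := by
    intro k
    have h1 : Real.exp (-(b k)) ≤ 1 := by
      rw [Real.exp_le_one_iff]
      linarith [hb k]
    have h2 : (0:ℝ) < (1 / 2) ^ k := by positivity
    have h3 : 0 < Real.exp (-(b k)) := Real.exp_pos _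
    simp only [hτ]
    nlinarith
  have hQex : ∀ k, ∃ Q : MvPolynomial (Fin 2) ℂ, ∀ z w : ℂ, ‖z‖ ≤ 1 → ‖w‖ ≤ 1 →
      ‖ev Q z w - Complex.exp ((1 / 2 : ℂ) * ev (G k) z w)‖ ≤ τ k := fun k =>
    exists_exp_approx (G k) (1 / 2) (τ k) (hτpos k)
  choose Q hQ using hQex
  have hre2 : ∀ x : ℂ, ((1 / 2 : ℂ) * x).re = x.re / 2 := by
    intro x
    simp
    ring
  have hQ2 : ∀ k (z w : ℂ), ‖z‖ ≤ 1 → ‖w‖ ≤ 1 →
      ‖ev (Q k) z w ^ 2 - Complex.exp (ev (G k) z w)‖ ≤ (1 / 2) ^ k := by
    intro k z w hz hw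
    have h1 : Complex.exp (ev (G k) z w) = Complex.exp ((1 / 2 : ℂ) * ev (G k) z w) ^ 2 := by
      rw [← Complex.exp_nat_mul]
      congr 1
      push_cast
      ring
    have h2 : ‖Complex.exp ((1 / 2 : ℂ) * ev (G k) z w)‖ ≤ Real.exp (b k) := by
      rw [Complex.norm_exp, hre2]
      apply Real.exp_le_exp.2
      linarith [hGre k z w hz hw, hb k]
    have h3 := hQ k z w hz hw
    rw [h1]
    have h4 : ev (Q k) z w ^ 2 - Complex.exp ((1 / 2 : ℂ) * ev (G k) z w) ^ 2 =
        (ev (Q k) z w - Complex.exp ((1 / 2 : ℂ) * ev (G k) z w)) *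
        ((ev (Q k) z w - Complex.exp ((1 / 2 : ℂ) * ev (G k) z w)) +
          2 * Complex.exp ((1 / 2 : ℂ) * ev (G k) z w)) := by ring
    rw [h4, norm_mul]
    have h5 : ‖(ev (Q k) z w - Complex.exp ((1 / 2 : ℂ) * ev (G k) z w)) +
          2 * Complex.exp ((1 / 2 : ℂ) * ev (G k) z w)‖ ≤ 3 * Real.exp (b k) := by
      refine (norm_add_le _ _).trans ?_
      rw [norm_mul, Complex.norm_ofNat]
      have h6 : τ k ≤ Real.exp (b k) := by
        have h7 : (1:ℝ) ≤ Real.exp (b k) := Real.one_le_exp (hb k)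
        have h8 : ((1:ℝ) / 2) ^ k ≤ 1 := pow_le_one₀ (by norm_num) (by norm_num)
        linarith [hτle k]
      linarith
    calc _ ≤ τ k * (3 * Real.exp (b k)) := mul_le_mul h3 h5 (norm_nonneg _) (hτpos k).le
      _ = (1 / 2) ^ k * (Real.exp (-(b k)) * Real.exp (b k)) := by
        simp only [hτ]
        ring
      _ = (1 / 2) ^ k := by
        rw [← Real.exp_add]
        simp
  have hhalf : ∀ m k : ℕ, m ≤ k → ((1:ℝ) / 2) ^ k ≤ (1 / 2) ^ m := fun m k hmk =>
    pow_le_pow_of_le_one (by norm_num) (by norm_num) hmk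
  -- the three telescoped estimates on the torus
  have E1 : ∀ m k, m ≤ k → ∀ z w : ℂ, ‖z‖ ≤ 1 → ‖w‖ ≤ 1 →
      ‖Complex.exp ((1 / 2 : ℂ) * ev (G k) z w) - Complex.exp ((1 / 2 : ℂ) * ev (G m) z w)‖ ≤
        ∑ i ∈ Finset.Ico m k, c i * ‖ev (hh i) z w‖ := by
    intro m k hmk z w hz hw
    apply tele z w (fun i => (1 / 2 : ℂ) * ev (G i) z w) m k hmk
    · intro i _ _
      rw [hre2]
      have := hGre i z w hz hw
      have := hb i
      have := hbm (Nat.le_succ i)
      simp only [Nat.succ_eq_add_one] at this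
      linarith
    · intro i _ _
      rw [hre2]
      have := hGre (i + 1) z w hz hw
      have := hb (i + 1)
      linarith
    · intro i _ _
      rw [← mul_sub, ← hGsub, norm_mul]
      have : ‖(1 / 2 : ℂ)‖ = 1 / 2 := by simp
      rw [this]
      linarith [norm_nonneg (ev (hh i) z w)]
  have E2 : ∀ m k, m ≤ k → ∀ z w : ℂ, ‖z‖ ≤ 1 → ‖w‖ ≤ 1 →
      ‖Complex.exp (ev (G k) z w) - Complex.exp (ev (G m) z w)‖ ≤
        ∑ i ∈ Finset.Ico m k, c i * ‖ev (hh i) z w‖ := by
    intro m k hmk z w hz hw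
    apply tele z w (fun i => ev (G i) z w) m k hmk
    · intro i _ _
      have := hGre i z w hz hw
      have := hbm (Nat.le_succ i)
      simp only [Nat.succ_eq_add_one] at this
      linarith
    · intro i _ _
      exact hGre (i + 1) z w hz hw
    · intro i _ _
      rw [← hGsub]
  have E3 : ∀ m k, m ≤ k → ∀ z w : ℂ, ‖z‖ ≤ 1 → ‖w‖ ≤ 1 →
      ‖Complex.exp ((1 / 2 : ℂ) * (ev (G k) z w - ev (G m) z w)) - 1‖ ≤
        ∑ i ∈ Finset.Ico m k, c i * ‖ev (hh i) z w‖ := by
    intro m k hmk z w hz hw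
    have hGm : -(ev (G m) z w).re ≤ b (m + 1) :=
      (neg_le_abs _).trans ((Complex.abs_re_le_norm _).trans (hGn m z w hz hw))
    have := tele z w (fun i => (1 / 2 : ℂ) * (ev (G i) z w - ev (G m) z w)) m k hmk
      (by
        intro i hi _
        rw [hre2, Complex.sub_re]
        have h1 := hGre i z w hz hw
        have h2 := hbm (Nat.le_succ i)
        have h3 : b (m + 1) ≤ b (i + 1) := hbm (by omega)
        simp only [Nat.succ_eq_add_one] at h2
        linarith)
      (by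
        intro i hi _
        rw [hre2, Complex.sub_re]
        have h1 := hGre (i + 1) z w hz hw
        have h3 : b (m + 1) ≤ b (i + 1) := hbm (by omega)
        linarith)
      (by
        intro i _ _
        rw [← mul_sub, sub_sub_sub_cancel_right, ← hGsub, norm_mul]
        have : ‖(1 / 2 : ℂ)‖ = 1 / 2 := by simp
        rw [this]
        linarith [norm_nonneg (ev (hh i) z w)])
    simpa using this
  -- norm estimates
  set ρ : ℕ → ℝ := fun m => 3 * (2 * (1 / 2) ^ m) ^ 2 + 3 * R m ^ 2 with hρ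
  have hρt : Tendsto ρ atTop (𝓝 0) := by
    have h1 : Tendsto (fun m : ℕ => ((1:ℝ) / 2) ^ m) atTop (𝓝 0) :=
      tendsto_pow_atTop_nhds_zero_of_lt_one (by norm_num) (by norm_num)
    have h2 := ((((h1.const_mul 2).pow 2).const_mul 3).add ((hRt.pow 2).const_mul 3))
    simpa [hρ] using h2
  have hsumR : ∀ m k, 3 * (∑ i ∈ Finset.Ico m k, X i) ^ 2 ≤ 3 * R m ^ 2 := by
    intro m k
    have := pow_le_pow_left₀ (hIco0 m k) (hIco m k) 2
    linarith
  have N1 : ∀ m k, m ≤ k → n2 (Q k - Q m) ≤ ρ m := by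
    intro m k hmk
    have := n2_dom hh c X (fun i => (hcpos i).le) hXpos hcX (Finset.Ico m k) (Q k - Q m) 0
      (2 * (1 / 2) ^ m) 0 (by positivity) le_rfl (by
        intro z w hz hw
        rw [ev_sub]
        have h1 := hQ k z w hz.le hw.le
        have h2 := hQ m z w hz.le hw.le
        have h3 := E1 m k hmk z w hz.le hw.le
        have h4 := hτle k
        have h5 := hτle m
        have h6 := hhalf m k hmk
        have h7 : ev (Q k) z w - ev (Q m) z w =
            (ev (Q k) z w - Complex.exp ((1 / 2 : ℂ) * ev (G k) z w)) -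
            (ev (Q m) z w - Complex.exp ((1 / 2 : ℂ) * ev (G m) z w)) +
            (Complex.exp ((1 / 2 : ℂ) * ev (G k) z w) - Complex.exp ((1 / 2 : ℂ) * ev (G m) z w)) := by
          ring
        rw [h7]
        have h8 := norm_add_le ((ev (Q k) z w - Complex.exp ((1 / 2 : ℂ) * ev (G k) z w)) -
            (ev (Q m) z w - Complex.exp ((1 / 2 : ℂ) * ev (G m) z w)))
            (Complex.exp ((1 / 2 : ℂ) * ev (G k) z w) - Complex.exp ((1 / 2 : ℂ) * ev (G m) z w))
        have h9 := norm_sub_le (ev (Q k) z w - Complex.exp ((1 / 2 : ℂ) * ev (G k) z w))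
          (ev (Q m) z w - Complex.exp ((1 / 2 : ℂ) * ev (G m) z w))
        simp only [zero_mul, add_zero]
        linarith)
    have h2 := hsumR m k
    simp only [hρ]
    linarith
  have N2 : ∀ m k, m ≤ k → n2 (Q k * Q k - Q m * Q m) ≤ ρ m := by
    intro m k hmk
    have := n2_dom hh c X (fun i => (hcpos i).le) hXpos hcX (Finset.Ico m k) (Q k * Q k - Q m * Q m) 0
      (2 * (1 / 2) ^ m) 0 (by positivity) le_rfl (by
        intro z w hz hw
        rw [ev_sub, ev_mul, ev_mul, ← pow_two, ← pow_two]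
        have h1 := hQ2 k z w hz.le hw.le
        have h2 := hQ2 m z w hz.le hw.le
        have h3 := E2 m k hmk z w hz.le hw.le
        have h6 := hhalf m k hmk
        have h7 : ev (Q k) z w ^ 2 - ev (Q m) z w ^ 2 =
            (ev (Q k) z w ^ 2 - Complex.exp (ev (G k) z w)) -
            (ev (Q m) z w ^ 2 - Complex.exp (ev (G m) z w)) +
            (Complex.exp (ev (G k) z w) - Complex.exp (ev (G m) z w)) := by
          ring
        rw [h7]
        have h8 := norm_add_le ((ev (Q k) z w ^ 2 - Complex.exp (ev (G k) z w)) -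
            (ev (Q m) z w ^ 2 - Complex.exp (ev (G m) z w)))
            (Complex.exp (ev (G k) z w) - Complex.exp (ev (G m) z w))
        have h9 := norm_sub_le (ev (Q k) z w ^ 2 - Complex.exp (ev (G k) z w))
          (ev (Q m) z w ^ 2 - Complex.exp (ev (G m) z w))
        simp only [zero_mul, add_zero]
        linarith)
    have h2 := hsumR m k
    simp only [hρ]
    linarith
  set B0 : ℝ := 3 * 2 ^ 2 + 3 * R 0 ^ 2 with hB0
  have hB0pos : 0 ≤ B0 := by positivity
  have NB1 : ∀ k, n2 (Q k) ≤ B0 := by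
    intro k
    have := n2_dom hh c X (fun i => (hcpos i).le) hXpos hcX (Finset.Ico 0 k) (Q k) 0
      2 0 (by positivity) le_rfl (by
        intro z w hz hw
        have h1 := hQ k z w hz.le hw.le
        have h3 := E1 0 k (Nat.zero_le k) z w hz.le hw.le
        rw [hG0, mul_zero, Complex.exp_zero] at h3
        have h4 := hτle k
        have h6 := hhalf 0 k (Nat.zero_le k)
        rw [pow_zero] at h6
        have h7 : ev (Q k) z w =
            (ev (Q k) z w - Complex.exp ((1 / 2 : ℂ) * ev (G k) z w)) + 1 +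
            (Complex.exp ((1 / 2 : ℂ) * ev (G k) z w) - 1) := by
          ring
        have h8 := norm_add_le ((ev (Q k) z w - Complex.exp ((1 / 2 : ℂ) * ev (G k) z w)) + 1)
            (Complex.exp ((1 / 2 : ℂ) * ev (G k) z w) - 1)
        have h9 := norm_add_le (ev (Q k) z w - Complex.exp ((1 / 2 : ℂ) * ev (G k) z w)) 1
        rw [norm_one] at h9
        rw [← h7] at h8
        simp only [zero_mul, add_zero]
        linarith)
    have h2 := hsumR 0 k
    simp only [hB0]
    linarith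
  have NB2 : ∀ k, n2 (Q k * Q k) ≤ B0 := by
    intro k
    have := n2_dom hh c X (fun i => (hcpos i).le) hXpos hcX (Finset.Ico 0 k) (Q k * Q k) 0
      2 0 (by positivity) le_rfl (by
        intro z w hz hw
        rw [ev_mul, ← pow_two]
        have h1 := hQ2 k z w hz.le hw.le
        have h3 := E2 0 k (Nat.zero_le k) z w hz.le hw.le
        rw [hG0, Complex.exp_zero] at h3
        have h6 := hhalf 0 k (Nat.zero_le k)
        rw [pow_zero] at h6
        have h7 : ev (Q k) z w ^ 2 =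
            (ev (Q k) z w ^ 2 - Complex.exp (ev (G k) z w)) + 1 +
            (Complex.exp (ev (G k) z w) - 1) := by
          ring
        have h8 := norm_add_le ((ev (Q k) z w ^ 2 - Complex.exp (ev (G k) z w)) + 1)
            (Complex.exp (ev (G k) z w) - 1)
        have h9 := norm_add_le (ev (Q k) z w ^ 2 - Complex.exp (ev (G k) z w)) 1
        rw [norm_one] at h9
        rw [← h7] at h8
        simp only [zero_mul, add_zero]
        linarith)
    have h2 := hsumR 0 k
    simp only [hB0]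
    linarith
  have hρ0 : ∀ m, 0 ≤ ρ m := fun m => by simp only [hρ]; positivity
  -- coefficientwise limits
  have hcoef : ∀ (m k : ℕ) (d : Fin 2 →₀ ℕ), m ≤ k → ‖(Q k).coeff d - (Q m).coeff d‖ ^ 2 ≤ ρ m := by
    intro m k d hmk
    have h1 := sum_le_n2 (Q k - Q m) {d}
    rw [Finset.sum_singleton, MvPolynomial.coeff_sub] at h1
    exact h1.trans (N1 m k hmk)
  have hcau : ∀ d : Fin 2 →₀ ℕ, CauchySeq (fun k => (Q k).coeff d) := by
    intro d
    apply cauchySeq_of_le_tendsto_0 (fun N => 2 * Real.sqrt (ρ N))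
    · intro k m N hk hm
      have h3 : ‖(Q k).coeff d - (Q N).coeff d‖ ≤ Real.sqrt (ρ N) :=
        Real.le_sqrt_of_sq_le (hcoef N k d hk)
      have h4 : ‖(Q m).coeff d - (Q N).coeff d‖ ≤ Real.sqrt (ρ N) :=
        Real.le_sqrt_of_sq_le (hcoef N m d hm)
      have h5 := dist_triangle_right ((Q k).coeff d) ((Q m).coeff d) ((Q N).coeff d)
      rw [dist_eq_norm ((Q k).coeff d) ((Q N).coeff d),
        dist_eq_norm ((Q m).coeff d) ((Q N).coeff d)] at h5
      linarith
    · have := (hρt.sqrt).const_mul 2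
      simpa using this
  choose f hf using fun d => cauchySeq_tendsto_of_complete (hcau d)
  obtain ⟨F, hF⟩ : ∃ F : MvPowerSeries (Fin 2) ℂ, ∀ d, MvPowerSeries.coeff (R := ℂ) d F = f d :=
    ⟨fun d => f d, fun d => rfl⟩
  have hCT : CT (fun k => (Q k : MvPowerSeries (Fin 2) ℂ)) F := by
    intro d
    rw [hF d]
    simpa using hf d
  have hCT2 : CT (fun k => ((Q k * Q k : MvPolynomial (Fin 2) ℂ) : MvPowerSeries (Fin 2) ℂ)) (F * F) := by
    have := hCT.mul hCT
    simpa using this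
  have hEF : En F B0 := hCT.En (Eventually.of_forall fun k => (En_coe (Q k)).mono (NB1 k))
  have hEF2 : En (F * F) B0 := hCT2.En (Eventually.of_forall fun k => (En_coe (Q k * Q k)).mono (NB2 k))
  refine ⟨F, hEF.summable, hEF2.summable, ?_, ?_⟩
  · -- cyclicity
    intro ε hε
    -- choice of `m`
    have h1 : Tendsto (fun m => 3 * R m ^ 2) atTop (𝓝 0) := by
      simpa using (hRt.pow 2).const_mul 3
    obtain ⟨m, hm⟩ := ((tendsto_order.1 h1).2 (ε / 4) (by linarith)).exists
    obtain ⟨t, ht0, ht⟩ : ∃ t : ℝ, 0 < t ∧ 3 * t ^ 2 + 3 * t ^ 2 * B0 < ε / 4 := by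
      have h2 : Tendsto (fun t : ℝ => 3 * t ^ 2 + 3 * t ^ 2 * B0) (𝓝[>] 0) (𝓝 0) := by
        have : Continuous (fun t : ℝ => 3 * t ^ 2 + 3 * t ^ 2 * B0) := by fun_prop
        have h3 := (this.tendsto 0).mono_left (nhdsWithin_le_nhds (s := Set.Ioi (0:ℝ)))
        simpa using h3
      obtain ⟨t, ht1, ht2⟩ := (((tendsto_order.1 h2).2 (ε / 4) (by linarith)).and
        self_mem_nhdsWithin).exists
      exact ⟨t, ht2, ht1⟩
    obtain ⟨P, hP⟩ := exists_exp_approx (G m) (-(1 / 2)) t ht0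
    refine ⟨P, ?_⟩
    have hCT3 : CT (fun k => ((P * Q k - 1 : MvPolynomial (Fin 2) ℂ) : MvPowerSeries (Fin 2) ℂ))
        ((P : MvPowerSeries (Fin 2) ℂ) * F - 1) := by
      have := ((CT.const (P : MvPowerSeries (Fin 2) ℂ)).mul hCT).sub (CT.const 1)
      simpa [coe_sub] using this
    have hsmall : ∀ᶠ k in atTop, Real.exp (b (m + 1)) * (1 / 2) ^ k < t := by
      have h3 : Tendsto (fun k : ℕ => Real.exp (b (m + 1)) * ((1:ℝ) / 2) ^ k) atTop (𝓝 0) := by
        simpa using (tendsto_pow_atTop_nhds_zero_of_lt_one (r := (1:ℝ) / 2) (by norm_num)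
          (by norm_num)).const_mul (Real.exp (b (m + 1)))
      exact (tendsto_order.1 h3).2 t ht0
    have hEn : En ((P : MvPowerSeries (Fin 2) ℂ) * F - 1) (ε / 2) := by
      apply hCT3.En
      filter_upwards [hsmall, eventually_ge_atTop m] with k hk hmk
      apply (En_coe _).mono
      have := n2_dom hh c X (fun i => (hcpos i).le) hXpos hcX (Finset.Ico m k) (P * Q k - 1) (Q k)
        t t ht0.le ht0.le (by
          intro z w hz hw
          rw [ev_sub, ev_mul, ev_one]
          have h3 := hP z w hz.le hw.le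
          have h4 := hQ k z w hz.le hw.le
          have h5 := E3 m k hmk z w hz.le hw.le
          have h6 : ‖Complex.exp (-(1 / 2 : ℂ) * ev (G m) z w)‖ ≤ Real.exp (b (m + 1)) := by
            refine (Complex.norm_exp_le_exp_norm _).trans (Real.exp_le_exp.2 ?_)
            rw [norm_mul]
            have : ‖(-(1 / 2) : ℂ)‖ = 1 / 2 := by simp
            rw [this]
            have := hGn m z w hz.le hw.le
            have := hb (m + 1)
            linarith
          have h7 : ev P z w * ev (Q k) z w - 1 =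
              (ev P z w - Complex.exp (-(1 / 2 : ℂ) * ev (G m) z w)) * ev (Q k) z w +
              Complex.exp (-(1 / 2 : ℂ) * ev (G m) z w) *
                (ev (Q k) z w - Complex.exp ((1 / 2 : ℂ) * ev (G k) z w)) +
              (Complex.exp ((1 / 2 : ℂ) * (ev (G k) z w - ev (G m) z w)) - 1) := by
            have h8 : Complex.exp ((1 / 2 : ℂ) * (ev (G k) z w - ev (G m) z w)) =
                Complex.exp (-(1 / 2 : ℂ) * ev (G m) z w) * Complex.exp ((1 / 2 : ℂ) * ev (G k) z w) := by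
              rw [← Complex.exp_add]
              congr 1
              ring
            rw [h8]
            ring
          rw [h7]
          have h9 := norm_add_le ((ev P z w - Complex.exp (-(1 / 2 : ℂ) * ev (G m) z w)) * ev (Q k) z w +
              Complex.exp (-(1 / 2 : ℂ) * ev (G m) z w) *
                (ev (Q k) z w - Complex.exp ((1 / 2 : ℂ) * ev (G k) z w)))
              (Complex.exp ((1 / 2 : ℂ) * (ev (G k) z w - ev (G m) z w)) - 1)
          have h10 := norm_add_le ((ev P z w - Complex.exp (-(1 / 2 : ℂ) * ev (G m) z w)) * ev (Q k) z w)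
              (Complex.exp (-(1 / 2 : ℂ) * ev (G m) z w) *
                (ev (Q k) z w - Complex.exp ((1 / 2 : ℂ) * ev (G k) z w)))
          rw [norm_mul, norm_mul] at h10
          have h11 : ‖ev P z w - Complex.exp (-(1 / 2 : ℂ) * ev (G m) z w)‖ * ‖ev (Q k) z w‖ ≤
              t * ‖ev (Q k) z w‖ := mul_le_mul_of_nonneg_right h3 (norm_nonneg _)
          have h12 : ‖Complex.exp (-(1 / 2 : ℂ) * ev (G m) z w)‖ *
              ‖ev (Q k) z w - Complex.exp ((1 / 2 : ℂ) * ev (G k) z w)‖ ≤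
              Real.exp (b (m + 1)) * (1 / 2) ^ k :=
            mul_le_mul h6 (h4.trans (hτle k)) (norm_nonneg _) (Real.exp_pos _).le
          linarith)
      have h3 := hsumR m k
      have h4 : 3 * t ^ 2 * n2 (Q k) ≤ 3 * t ^ 2 * B0 :=
        mul_le_mul_of_nonneg_left (NB1 k) (by positivity)
      linarith
    have := hEn.tsum_le
    linarith
  · -- non-cyclicity
    intro hcyc
    obtain ⟨ε, hε, hA6⟩ := A6
    obtain ⟨P, hP⟩ := hcyc (ε / 16) (by linarith)
    obtain ⟨BP, hBP0, hBP⟩ := exists_bound P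
    have hCTP : CT (fun k => ((P * (Q k * Q k) : MvPolynomial (Fin 2) ℂ) : MvPowerSeries (Fin 2) ℂ))
        ((P : MvPowerSeries (Fin 2) ℂ) * (F * F)) := by
      have := (CT.const (P : MvPowerSeries (Fin 2) ℂ)).mul hCT2
      simpa using this
    -- multiplication by `P`
    have hmul : ∀ W : MvPolynomial (Fin 2) ℂ, n2 (P * W) ≤ BP ^ 2 * n2 W := by
      intro W
      have := n2_le_of_bound ({0} : Finset ℕ) (P * W) (fun _ => W) 0 (fun _ => BP ^ 2) (by
        intro z w hz hw
        rw [ev_mul, norm_mul, mul_pow, Finset.sum_singleton, zero_add]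
        exact mul_le_mul_of_nonneg_right (pow_le_pow_left₀ (norm_nonneg _) (hBP z w hz.le hw.le) 2)
          (by positivity))
      simpa using this
    have hPF : En ((P : MvPowerSeries (Fin 2) ℂ) * (F * F)) (BP ^ 2 * B0) := by
      apply hCTP.En
      refine Eventually.of_forall fun k => (En_coe _).mono ((hmul _).trans ?_)
      exact mul_le_mul_of_nonneg_left (NB2 k) (by positivity)
    have hPF1 : En ((P : MvPowerSeries (Fin 2) ℂ) * (F * F) - 1) (ε / 16) := by
      have h1 : En (((-1 : MvPolynomial (Fin 2) ℂ)) : MvPowerSeries (Fin 2) ℂ) (n2 (-1)) := En_coe _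
      have h2 := hPF.add h1
      have h3 : (P : MvPowerSeries (Fin 2) ℂ) * (F * F) +
          ((-1 : MvPolynomial (Fin 2) ℂ) : MvPowerSeries (Fin 2) ℂ) =
          (P : MvPowerSeries (Fin 2) ℂ) * (F * F) - 1 := by
        have h4 : ((-1 : MvPolynomial (Fin 2) ℂ) : MvPowerSeries (Fin 2) ℂ) = -1 := by
          have := coe_sub 0 1
          simpa using this
        rw [h4, sub_eq_add_neg]
      rw [h3] at h2
      exact En_of_tsum_le h2.summable hP.le
    -- norm convergence
    have hconv : ∀ k, En (((P * (Q k * Q k) : MvPolynomial (Fin 2) ℂ) : MvPowerSeries (Fin 2) ℂ) -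
        (P : MvPowerSeries (Fin 2) ℂ) * (F * F)) (BP ^ 2 * ρ k) := by
      intro k
      have h1 : CT (fun j => ((P * (Q k * Q k) - P * (Q j * Q j) : MvPolynomial (Fin 2) ℂ) :
          MvPowerSeries (Fin 2) ℂ)) (((P * (Q k * Q k) : MvPolynomial (Fin 2) ℂ) :
          MvPowerSeries (Fin 2) ℂ) - (P : MvPowerSeries (Fin 2) ℂ) * (F * F)) := by
        have := (CT.const ((P * (Q k * Q k) : MvPolynomial (Fin 2) ℂ) : MvPowerSeries (Fin 2) ℂ)).sub hCTP
        simpa [coe_sub] using this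
      apply h1.En
      filter_upwards [eventually_ge_atTop k] with j hj
      apply (En_coe _).mono
      have h2 : n2 (P * (Q k * Q k) - P * (Q j * Q j)) = n2 (P * (Q j * Q j - Q k * Q k)) := by
        have h3 : P * (Q k * Q k) - P * (Q j * Q j) = -(P * (Q j * Q j - Q k * Q k)) := by ring
        rw [h3]
        unfold n2
        simp [MvPolynomial.support_neg]
      rw [h2]
      exact (hmul _).trans (mul_le_mul_of_nonneg_left (N2 k j hj) (by positivity))
    have hn2 : ∀ k, n2 (P * (Q k * Q k) - 1) ≤ 2 * (BP ^ 2 * ρ k) + 2 * (ε / 16) := by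
      intro k
      apply n2_le_of_En
      have := (hconv k).add hPF1
      have h3 : ((P * (Q k * Q k) - 1 : MvPolynomial (Fin 2) ℂ) : MvPowerSeries (Fin 2) ℂ) =
          (((P * (Q k * Q k) : MvPolynomial (Fin 2) ℂ) : MvPowerSeries (Fin 2) ℂ) -
          (P : MvPowerSeries (Fin 2) ℂ) * (F * F)) + ((P : MvPowerSeries (Fin 2) ℂ) * (F * F) - 1) := by
        rw [coe_sub, MvPolynomial.coe_one]
        ring
      rw [h3]
      exact this
    -- contradiction
    have hlim : Tendsto (fun k => 2 * (2 * (BP ^ 2 * ρ k) + 2 * (ε / 16)) + 2 * (BP ^ 2 * ((1 / 2) ^ k) ^ 2))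
        atTop (𝓝 (2 * (2 * (BP ^ 2 * 0) + 2 * (ε / 16)) + 2 * (BP ^ 2 * 0 ^ 2))) := by
      have h1 : Tendsto (fun m : ℕ => ((1:ℝ) / 2) ^ m) atTop (𝓝 0) :=
        tendsto_pow_atTop_nhds_zero_of_lt_one (by norm_num) (by norm_num)
      exact ((((hρt.const_mul _).const_mul 2).add_const _).const_mul 2).add
        (((h1.pow 2).const_mul _).const_mul 2)
    have hlim2 : ∀ᶠ k in atTop, 2 * (2 * (BP ^ 2 * ρ k) + 2 * (ε / 16)) + 2 * (BP ^ 2 * ((1 / 2) ^ k) ^ 2) < ε := by
      apply (tendsto_order.1 hlim).2 ε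
      norm_num
      linarith
    obtain ⟨k, hk, r, hr0, hr1, hr⟩ := (hlim2.and (hA6 (dg P))).exists
    have hr2 : 0 < 1 - r ^ 2 := by nlinarith
    -- compare the two circle averages
    have hcontE : Continuous (fun z : ℂ => ‖(dg P).eval z * Complex.exp ((H k).eval z) - 1‖ ^ 2) := by
      fun_prop
    have hevd : ∀ W : MvPolynomial (Fin 2) ℂ, Continuous (fun z : ℂ => ‖ev W z z‖ ^ 2) := by
      intro W
      have : (fun z : ℂ => ‖ev W z z‖ ^ 2) = fun z => ‖(dg W).eval z‖ ^ 2 := by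
        funext z; rw [dg_eval]
      rw [this]
      fun_prop
    have hcmp : Real.circleAverage (fun z => ‖(dg P).eval z * Complex.exp ((H k).eval z) - 1‖ ^ 2) 0 r ≤
        2 * Real.circleAverage (fun z => ‖ev (P * (Q k * Q k) - 1) z z‖ ^ 2) 0 r +
          2 * (BP ^ 2 * ((1 / 2) ^ k) ^ 2) := by
      have h1 : 2 * Real.circleAverage (fun z => ‖ev (P * (Q k * Q k) - 1) z z‖ ^ 2) 0 r +
          2 * (BP ^ 2 * ((1 / 2) ^ k) ^ 2) =
          Real.circleAverage (fun z => 2 * ‖ev (P * (Q k * Q k) - 1) z z‖ ^ 2 +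
          2 * (BP ^ 2 * ((1 / 2) ^ k) ^ 2)) 0 r := by
        rw [Real.circleAverage_fun_add, Real.circleAverage_const]
        · have := Real.circleAverage_fun_smul (a := (2:ℝ))
            (f := fun z : ℂ => ‖ev (P * (Q k * Q k) - 1) z z‖ ^ 2) (c := 0) (R := r)
          simp only [smul_eq_mul] at this
          rw [this]
        · exact (continuous_const.mul (hevd _)).continuousOn.circleIntegrable'
        · exact continuous_const.continuousOn.circleIntegrable'
      rw [h1]
      apply Real.circleAverage_mono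
      · exact hcontE.continuousOn.circleIntegrable'
      · exact ((continuous_const.mul (hevd _)).add continuous_const).continuousOn.circleIntegrable'
      · intro z hz
        have hz1 : ‖z‖ ≤ 1 := by
          simp at hz
          rw [hz, abs_of_pos hr0]
          exact hr1.le
        have h2 := hQ2 k z z hz1 hz1
        have h3 : ev (G k) z z = (H k).eval z := ev_T_diag _ _
        rw [h3] at h2
        rw [dg_eval, ev_sub, ev_mul, ev_mul, ev_one, ← pow_two]
        have h4 : ev P z z * Complex.exp ((H k).eval z) - 1 =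
            (ev P z z * ev (Q k) z z ^ 2 - 1) -
              ev P z z * (ev (Q k) z z ^ 2 - Complex.exp ((H k).eval z)) := by ring
        rw [h4]
        have h5 := norm_sub_le (ev P z z * ev (Q k) z z ^ 2 - 1)
          (ev P z z * (ev (Q k) z z ^ 2 - Complex.exp ((H k).eval z)))
        have h6 : ‖ev P z z * (ev (Q k) z z ^ 2 - Complex.exp ((H k).eval z))‖ ≤ BP * (1 / 2) ^ k := by
          rw [norm_mul]
          exact mul_le_mul (hBP z z hz1 hz1) h2 (norm_nonneg _) hBP0
        have h7 : ‖(ev P z z * ev (Q k) z z ^ 2 - 1) -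
              ev P z z * (ev (Q k) z z ^ 2 - Complex.exp ((H k).eval z))‖ ≤
              ‖ev P z z * ev (Q k) z z ^ 2 - 1‖ + BP * (1 / 2) ^ k := by linarith
        have h8 := pow_le_pow_left₀ (norm_nonneg _) h7 2
        nlinarith [sq_nonneg (‖ev P z z * ev (Q k) z z ^ 2 - 1‖ - BP * (1 / 2) ^ k)]
    have hdiag := diag_bound (P * (Q k * Q k) - 1) r hr0 hr1
    have h9 := hn2 k
    have h10 := mul_le_mul_of_nonneg_left hcmp hr2.le
    have h11 : (1 - r ^ 2) * (2 * (BP ^ 2 * ((1 / 2) ^ k) ^ 2)) ≤ 2 * (BP ^ 2 * ((1 / 2) ^ k) ^ 2) := by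
      have : 0 ≤ 2 * (BP ^ 2 * (((1:ℝ) / 2) ^ k) ^ 2) := by positivity
      nlinarith [sq_nonneg r]
    nlinarith

end

end Pool.Agent.helper30.Bid
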